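import Mathlib
import Pool.Agent.Helper47.LP.Main

set_option autoImplicit false

open Set Topology

namespace Pool.Agent.Results.MP_2a4eb4_gt.ZeroDim

/-- Let `L_p(X)` be perfectly normal. Then every closed subspace of `C_p(X, ℕ × 2^ω)` is separable.
If moreover `X` is strongly zero-dimensional, then `C_p(C_p(X))` is perfectly normal and every closed
subspace of every finite power of `C_p(X)` is separable. -/
theorem result :
    ∀ (X : Type) [TopologicalSpace X] [T35Space X],
      PerfectlyNormalSpace
          ↥(Submodule.span ℝ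
            (Set.range (fun (x : X) (f : {f : X → ℝ // Continuous f}) => f.1 x))) →
      (∀ S : Set {f : X → ℕ × (ℕ → Bool) // Continuous f}, IsClosed S →
          TopologicalSpace.SeparableSpace ↥S) ∧
      ((∀ f : X → ℝ, Continuous f → ∀ a b : ℝ, a < b →
          ∃ C : Set X, IsClopen C ∧ {x | f x ≤ a} ⊆ C ∧ C ⊆ {x | f x < b}) →
        PerfectlyNormalSpace {g : {f : X → ℝ // Continuous f} → ℝ // Continuous g} ∧
        ∀ (n : ℕ) (S : Set (Fin n → {f : X → ℝ // Continuous f})), IsClosed S →
          TopologicalSpace.SeparableSpace ↥S) := by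
  intro X _ _ hL
  refine ⟨fun E hE => ?_, fun hX => ?_⟩
  · obtain ⟨W, hW, _, h⟩ := Pool.Agent.Helper47.LP.approx X hL E hE
    exact Pool.Agent.Helper47.LP.sep W hW E h
  · have := Pool.Agent.Helper47.LP.main X hX hL
    exact ⟨this.2, this.1⟩

end Pool.Agent.Results.MP_2a4eb4_gt.ZeroDim
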